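import Pool.Agent.X162.QuadDiam

/-!
# MP_0815b2_gt, Q1: the inequality holds

`IsConvexFigure`, `perimeter`, `IsBoundaryCurve` and `QuadrisectPerimeter` are in
`Pool/Agent/X162/QuadCurve.lean`.

The proof: the perimeter is at most twice the total length of the two chords
(`Pool/Agent/X162/QuadThm.lean`), and the perimeter is at least twice the diameter.
-/

namespace Pool.Agent.Results.MP_0815b2_gt.DiamChords

open Pool.Agent.X162.Quad
open scoped RealInnerProductSpace ENNReal

/-- For every plane convex figure and every pair of perpendicular chords quadrisecting its
perimeter, the total length of the chords is at least the diameter. -/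
theorem result (F : Set (EuclideanSpace ℝ (Fin 2))) (hF : IsConvexFigure F)
    (a b c d : EuclideanSpace ℝ (Fin 2)) (hq : QuadrisectPerimeter F a b c d)
    (hperp : ⟪a - c, b - d⟫ = 0) : Metric.diam F ≤ dist a c + dist b d :=
  diam_le hF hq hperp

end Pool.Agent.Results.MP_0815b2_gt.DiamChords
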